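import Pool.Agent.Q67.HV.Defs

/-!
Project HV of helper67, job E0: the mollifier.
-/

set_option autoImplicit false

open MeasureTheory Set Metric Filter Topology
open scoped InnerProductSpace ENNReal ContDiff NNReal
open H772R2.NS

namespace Pool.Agent.Q224.HV

open Pool.Agent.Q67.HV

/-- the normed bump function. -/
noncomputable abbrev nb : E3 → ℝ := bmp.normed volume

theorem nb_smooth : ContDiff ℝ ∞ nb := bmp.contDiff_normed

theorem nb_compact : HasCompactSupport nb := bmp.hasCompactSupport_normed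

theorem eta_eq (δ : ℝ) : eta δ = fun x => δ⁻¹ ^ 3 * nb (δ⁻¹ • x) := rfl

theorem eta_smooth (δ : ℝ) : ContDiff ℝ ∞ (eta δ) := by
  rw [eta_eq]
  have h : ContDiff ℝ ∞ (fun x : E3 => nb (δ⁻¹ • x)) := nb_smooth.comp (contDiff_const_smul _)
  exact contDiff_const.mul h

theorem eta_nonneg {δ : ℝ} (hδ : 0 < δ) (x : E3) : 0 ≤ eta δ x :=
  mul_nonneg (by positivity) (bmp.nonneg_normed _)

theorem eta_zero {δ : ℝ} (hδ : 0 < δ) {x : E3} (hx : δ ≤ ‖x‖) : eta δ x = 0 := by
  have h : δ⁻¹ • x ∉ Function.support (bmp.normed (volume : Measure E3)) := by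
    rw [bmp.support_normed_eq, mem_ball_zero_iff]
    have : bmp.rOut = 1 := rfl
    rw [this, norm_smul, Real.norm_of_nonneg (by positivity), not_lt, inv_mul_eq_div,
      one_le_div hδ]
    exact hx
  have h2 : bmp.normed (volume : Measure E3) (δ⁻¹ • x) = 0 := Function.notMem_support.mp h
  simp [eta, h2]

theorem eta_even (δ : ℝ) (x : E3) : eta δ (-x) = eta δ x := by
  simp only [eta, smul_neg, bmp.normed_neg]

theorem eta_int {δ : ℝ} (hδ : 0 < δ) : ∫ x, eta δ x = 1 := by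
  rw [eta_eq, integral_const_mul, Measure.integral_comp_inv_smul_of_nonneg volume nb hδ.le,
    bmp.integral_normed]
  simp
  field_simp

theorem eta_tsupport {δ : ℝ} (hδ : 0 < δ) : tsupport (eta δ) ⊆ closedBall 0 δ := by
  refine closure_minimal (fun x hx => ?_) isClosed_closedBall
  rw [mem_closedBall_zero_iff]
  by_contra hcon
  exact hx (eta_zero hδ (not_le.mp hcon).le)

theorem eta_compact {δ : ℝ} (hδ : 0 < δ) : HasCompactSupport (eta δ) :=
  HasCompactSupport.intro (isCompact_closedBall 0 δ) (fun x hx => by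
    rw [mem_closedBall_zero_iff, not_le] at hx
    exact eta_zero hδ hx.le)

theorem fderiv_scale {f : E3 → ℝ} (hf : ContDiff ℝ ∞ f) (a c : ℝ) (x v : E3) :
    fderiv ℝ (fun y => a * f (c • y)) x v = a * c * fderiv ℝ f (c • x) v := by
  have h1 : HasFDerivAt f (fderiv ℝ f (c • x)) (c • x) :=
    ((hf.differentiable (by simp)) _).hasFDerivAt
  have h2 : HasFDerivAt (fun y : E3 => c • y) (c • ContinuousLinearMap.id ℝ E3) x :=
    (hasFDerivAt_id x).const_smul c
  have h3 := (h1.comp x h2).const_mul a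
  have h4 : fderiv ℝ (fun y => a * f (c • y)) x
      = a • (fderiv ℝ f (c • x)).comp (c • ContinuousLinearMap.id ℝ E3) := h3.fderiv
  rw [h4]
  simp [mul_assoc]

theorem eta_bounds : ∃ C : ℝ, 0 < C ∧ ∀ δ : ℝ, 0 < δ → ∀ x, eta δ x ≤ C / δ ^ 3 ∧
    (∀ j, |fderiv ℝ (eta δ) x (ev j)| ≤ C / δ ^ 4) ∧
    ∀ j k, |fderiv ℝ (fun y => fderiv ℝ (eta δ) y (ev j)) x (ev k)| ≤ C / δ ^ 5 := by
  obtain ⟨C0, hC0⟩ := nb_smooth.continuous.bounded_above_of_compact_support nb_compact
  have hd : ∀ j : Fin 3, ContDiff ℝ ∞ (fun y => fderiv ℝ nb y (ev j)) := fun j =>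
    (nb_smooth.fderiv_right (m := ∞) (by simp)).clm_apply contDiff_const
  have hdc : ∀ j : Fin 3, HasCompactSupport (fun y => fderiv ℝ nb y (ev j)) := fun j =>
    nb_compact.fderiv_apply ℝ _
  have hdd : ∀ j k : Fin 3, Continuous
      (fun x => fderiv ℝ (fun y => fderiv ℝ nb y (ev j)) x (ev k)) := fun j k =>
    ((hd j).continuous_fderiv (by simp)).clm_apply continuous_const
  have hddc : ∀ j k : Fin 3, HasCompactSupport
      (fun x => fderiv ℝ (fun y => fderiv ℝ nb y (ev j)) x (ev k)) := fun j k =>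
    (hdc j).fderiv_apply ℝ _
  choose C1 hC1 using fun j => (hd j).continuous.bounded_above_of_compact_support (hdc j)
  choose C2 hC2 using fun j k => (hdd j k).bounded_above_of_compact_support (hddc j k)
  have hC0' : 0 ≤ C0 := (norm_nonneg _).trans (hC0 0)
  have hC1' : ∀ j, 0 ≤ C1 j := fun j => (norm_nonneg _).trans (hC1 j 0)
  have hC2' : ∀ j k, 0 ≤ C2 j k := fun j k => (norm_nonneg _).trans (hC2 j k 0)
  have hs1 : ∀ j, C1 j ≤ ∑ j, C1 j := fun j =>
    Finset.single_le_sum (f := C1) (fun i _ => hC1' i) (Finset.mem_univ j)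
  have hs2 : ∀ j k, C2 j k ≤ ∑ j, ∑ k, C2 j k := fun j k =>
    (Finset.single_le_sum (f := C2 j) (fun i _ => hC2' j i) (Finset.mem_univ k)).trans
      (Finset.single_le_sum (f := fun j => ∑ k, C2 j k)
        (fun i _ => Finset.sum_nonneg fun k _ => hC2' i k) (Finset.mem_univ j))
  have hs1n : 0 ≤ ∑ j, C1 j := Finset.sum_nonneg fun i _ => hC1' i
  have hs2n : 0 ≤ ∑ j, ∑ k, C2 j k :=
    Finset.sum_nonneg fun i _ => Finset.sum_nonneg fun k _ => hC2' i k
  refine ⟨C0 + (∑ j, C1 j) + (∑ j, ∑ k, C2 j k) + 1, by positivity, fun δ hδ x => ⟨?_, ?_, ?_⟩⟩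
  · have h1 : nb (δ⁻¹ • x) ≤ C0 := (le_abs_self _).trans (hC0 _)
    calc eta δ x = nb (δ⁻¹ • x) / δ ^ 3 := by
          rw [eta_eq]; simp only; field_simp
      _ ≤ _ := by gcongr; linarith
  · intro j
    have e : fderiv ℝ (eta δ) x (ev j) = fderiv ℝ nb (δ⁻¹ • x) (ev j) / δ ^ 4 := by
      rw [eta_eq, fderiv_scale nb_smooth]
      field_simp
    rw [e, abs_div, abs_of_pos (by positivity : 0 < δ ^ 4)]
    gcongr
    have h1 : |fderiv ℝ nb (δ⁻¹ • x) (ev j)| ≤ C1 j := hC1 j _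
    linarith [hs1 j]
  · intro j k
    have e0 : (fun y => fderiv ℝ (eta δ) y (ev j))
        = fun y => (δ⁻¹ ^ 3 * δ⁻¹) * (fun w => fderiv ℝ nb w (ev j)) (δ⁻¹ • y) := by
      funext y
      rw [eta_eq, fderiv_scale nb_smooth]
    have e : fderiv ℝ (fun y => fderiv ℝ (eta δ) y (ev j)) x (ev k)
        = fderiv ℝ (fun y => fderiv ℝ nb y (ev j)) (δ⁻¹ • x) (ev k) / δ ^ 5 := by
      rw [e0, fderiv_scale (hd j)]
      field_simp
    rw [e, abs_div, abs_of_pos (by positivity : 0 < δ ^ 5)]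
    gcongr
    have h1 : |fderiv ℝ (fun y => fderiv ℝ nb y (ev j)) (δ⁻¹ • x) (ev k)| ≤ C2 j k := hC2 j k _
    linarith [hs2 j k]

/-- the square of an integral over a probability measure. -/
theorem lintegral_sq_le {α : Type*} {mα : MeasurableSpace α} (ν : Measure α)
    [IsProbabilityMeasure ν] (u : α → ℝ≥0∞) (hu : AEMeasurable u ν) :
    (∫⁻ t, u t ∂ν) ^ 2 ≤ ∫⁻ t, u t ^ 2 ∂ν := by
  have h := ENNReal.lintegral_mul_le_Lp_mul_Lq ν Real.HolderConjugate.two_two hu
    (aemeasurable_const (b := (1 : ℝ≥0∞)))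
  simp only [Pi.mul_apply, mul_one, lintegral_const, measure_univ,
    ENNReal.rpow_two, one_pow, ENNReal.one_rpow] at h
  calc (∫⁻ t, u t ∂ν) ^ 2 ≤ ((∫⁻ t, u t ^ 2 ∂ν) ^ ((1 : ℝ) / 2)) ^ 2 := by
        gcongr
    _ = _ := by
        rw [← ENNReal.rpow_natCast, ← ENNReal.rpow_mul]
        norm_num

/-- Jensen's inequality for the mollifier. -/
theorem jensen {k : E3 → ℝ} (hk : Continuous k) (hk0 : ∀ x, 0 ≤ k x) (hki : Integrable k)
    (hk1 : ∫ x, k x = 1) (g : E3 → ℝ) (hg : AEStronglyMeasurable g (volume : Measure E3)) :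
    ‖∫ t, k t * g t‖ₑ ^ 2 ≤ ∫⁻ t, ENNReal.ofReal (k t) * ‖g t‖ₑ ^ 2 := by
  set ν : Measure E3 := volume.withDensity (fun t => ENNReal.ofReal (k t)) with hν
  have hm : Measurable fun t => ENNReal.ofReal (k t) := hk.measurable.ennreal_ofReal
  have hp : IsProbabilityMeasure ν := by
    constructor
    rw [hν, withDensity_apply _ MeasurableSet.univ, Measure.restrict_univ,
      ← ofReal_integral_eq_lintegral_ofReal hki (Eventually.of_forall hk0), hk1]
    simp
  have h1 : ‖∫ t, k t * g t‖ₑ ≤ ∫⁻ t, ‖g t‖ₑ ∂ν := by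
    rw [lintegral_withDensity_eq_lintegral_mul₀ hm.aemeasurable hg.enorm]
    refine (enorm_integral_le_lintegral_enorm _).trans (le_of_eq ?_)
    refine lintegral_congr (fun t => ?_)
    rw [enorm_mul, Real.enorm_of_nonneg (hk0 t)]
    rfl
  have h2 : ∫⁻ t, ‖g t‖ₑ ^ 2 ∂ν = ∫⁻ t, ENNReal.ofReal (k t) * ‖g t‖ₑ ^ 2 := by
    rw [lintegral_withDensity_eq_lintegral_mul₀ hm.aemeasurable (hg.enorm.pow_const 2)]
    rfl
  rw [← h2]
  refine le_trans (by gcongr) (lintegral_sq_le ν _ ?_)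
  exact (hg.enorm).mono_ac (withDensity_absolutelyContinuous _ _)

/-- The integrated version of Jensen's inequality. -/
theorem moll_L2 {k : E3 → ℝ} (hk : Continuous k) (hk0 : ∀ x, 0 ≤ k x) (hki : Integrable k)
    (hk1 : ∫ x, k x = 1) (G : E3 → E3 → ℝ) (hG : AEStronglyMeasurable
      (fun p : E3 × E3 => G p.1 p.2) ((volume : Measure E3).prod (volume : Measure E3))) :
    ∫⁻ x, ‖∫ t, k t * G x t‖ₑ ^ 2 ≤ ∫⁻ t, ENNReal.ofReal (k t) * ∫⁻ x, ‖G x t‖ₑ ^ 2 := by
  have h1 : ∀ᵐ x : E3, AEStronglyMeasurable (G x) (volume : Measure E3) := hG.prodMk_left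
  have hm : Measurable fun t => ENNReal.ofReal (k t) := hk.measurable.ennreal_ofReal
  have hm2 : AEMeasurable (fun p : E3 × E3 => ENNReal.ofReal (k p.2) * ‖G p.1 p.2‖ₑ ^ 2)
      ((volume : Measure E3).prod (volume : Measure E3)) :=
    (hm.comp measurable_snd).aemeasurable.mul (hG.enorm.pow_const 2)
  calc ∫⁻ x, ‖∫ t, k t * G x t‖ₑ ^ 2
      ≤ ∫⁻ x, ∫⁻ t, ENNReal.ofReal (k t) * ‖G x t‖ₑ ^ 2 := by
        refine lintegral_mono_ae ?_
        filter_upwards [h1] with x hx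
        exact jensen hk hk0 hki hk1 _ hx
    _ = ∫⁻ t, ∫⁻ x, ENNReal.ofReal (k t) * ‖G x t‖ₑ ^ 2 := lintegral_lintegral_swap hm2
    _ = _ := by
        refine lintegral_congr (fun t => ?_)
        rw [lintegral_const_mul' _ _ ENNReal.ofReal_ne_top]

theorem integral_sq_eq {f : E3 → ℝ} (hf : AEStronglyMeasurable f (volume : Measure E3)) :
    ∫ x, f x ^ 2 = (∫⁻ x, ‖f x‖ₑ ^ 2).toReal := by
  rw [integral_eq_lintegral_of_nonneg_ae (Eventually.of_forall fun x => sq_nonneg _)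
    (hf.aemeasurable.pow_const 2).aestronglyMeasurable]
  congr 1
  refine lintegral_congr (fun x => ?_)
  rw [← enorm_pow, Real.enorm_of_nonneg (sq_nonneg _)]

theorem memLp_two_iff {f : E3 → ℝ} : MemLp f 2 (volume : Measure E3) ↔
    AEStronglyMeasurable f (volume : Measure E3) ∧ ∫⁻ x, ‖f x‖ₑ ^ 2 < ⊤ := by
  unfold MemLp
  rw [eLpNorm_lt_top_iff_lintegral_rpow_enorm_lt_top (by norm_num) (by norm_num)]
  simp

theorem enorm_sq_Lp (u : Lp ℝ 2 (volume : Measure E3)) : ‖u‖ₑ ^ 2 = ∫⁻ x, ‖u x‖ₑ ^ 2 := by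
  rw [Lp.enorm_def, eLpNorm_eq_lintegral_rpow_enorm_toReal (by norm_num) (by norm_num)]
  rw [← ENNReal.rpow_natCast, ← ENNReal.rpow_mul]
  norm_num

theorem conv_eq (k f : E3 → ℝ) (x : E3) : ∫ y, k (x - y) * f y = ∫ t, k t * f (x - t) := by
  have := integral_sub_left_eq_self (fun t => k t * f (x - t)) (volume : Measure E3) x
  rw [← this]
  simp

theorem meas_sub {f : E3 → ℝ} (hf : AEStronglyMeasurable f (volume : Measure E3)) :
    AEStronglyMeasurable (fun p : E3 × E3 => f (p.1 - p.2))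
      ((volume : Measure E3).prod (volume : Measure E3)) :=
  hf.comp_quasiMeasurePreserving (quasiMeasurePreserving_sub_of_right_invariant _ _)

theorem lint_sub (f : E3 → ℝ) (t : E3) : ∫⁻ x, ‖f (x - t)‖ₑ ^ 2 = ∫⁻ x, ‖f x‖ₑ ^ 2 :=
  lintegral_sub_right_eq_self (fun x => ‖f x‖ₑ ^ 2) t

theorem lint_eta {δ : ℝ} (hδ : 0 < δ) : ∫⁻ t, ENNReal.ofReal (eta δ t) = 1 := by
  rw [← ofReal_integral_eq_lintegral_ofReal
    ((eta_smooth δ).continuous.integrable_of_hasCompactSupport (eta_compact hδ))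
    (Eventually.of_forall (eta_nonneg hδ)), eta_int hδ]
  simp

/-- the contraction in `L²`. -/
theorem moll_le {f : E3 → ℝ} (hf : AEStronglyMeasurable f (volume : Measure E3)) {δ : ℝ}
    (hδ : 0 < δ) : ∫⁻ x, ‖∫ y, eta δ (x - y) * f y‖ₑ ^ 2 ≤ ∫⁻ x, ‖f x‖ₑ ^ 2 := by
  simp_rw [conv_eq (eta δ) f]
  refine (moll_L2 (eta_smooth δ).continuous (eta_nonneg hδ)
    ((eta_smooth δ).continuous.integrable_of_hasCompactSupport (eta_compact hδ)) (eta_int hδ)
    (fun x t => f (x - t)) (meas_sub hf)).trans (le_of_eq ?_)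
  simp_rw [lint_sub]
  rw [lintegral_mul_const _ (eta_smooth δ).continuous.measurable.ennreal_ofReal, lint_eta hδ,
    one_mul]

theorem moll_smooth {f : E3 → ℝ} (hf : LocallyIntegrable f (volume : Measure E3)) {δ : ℝ}
    (hδ : 0 < δ) : ContDiff ℝ ∞ (fun x => ∫ y, eta δ (x - y) * f y) := by
  have := (eta_compact hδ).contDiff_convolution_left (ContinuousLinearMap.lsmul ℝ ℝ)
    (eta_smooth δ) hf
  have e : (fun x => ∫ y, eta δ (x - y) * f y)
      = convolution (eta δ) f (ContinuousLinearMap.lsmul ℝ ℝ) volume := by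
    funext x
    rw [convolution_lsmul_swap]
    rfl
  rw [e]
  exact this

/-- continuity of the translations in `L²`. -/
theorem trans_cont {f : E3 → ℝ} (hf : MemLp f 2 (volume : Measure E3)) :
    Tendsto (fun t : E3 => ∫⁻ x, ‖f (x - t) - f x‖ₑ ^ 2) (𝓝 0) (𝓝 0) := by
  let T : E3 → C(E3, E3) := fun t => ⟨fun x => x - t, by fun_prop⟩
  have hT : Continuous T := ContinuousMap.continuous_of_continuous_uncurry _ (by
    simp only [T, Function.uncurry_def, ContinuousMap.coe_mk]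
    fun_prop)
  have hmp : ∀ t, MeasurePreserving (T t) (volume : Measure E3) volume := fun t =>
    measurePreserving_sub_right volume t
  have h0 := Filter.Tendsto.compMeasurePreservingLp (p := 2)
    (f := fun _ : E3 => hf.toLp f) (f₀ := hf.toLp f) (l := 𝓝 (0 : E3)) tendsto_const_nhds
    (hT.tendsto 0) hmp (hmp 0) (by norm_num)
  have e0 : Lp.compMeasurePreserving (T 0) (hmp 0) (hf.toLp f) = hf.toLp f := by
    refine Lp.ext ?_
    filter_upwards [Lp.coeFn_compMeasurePreserving (hf.toLp f) (hmp 0)] with x hx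
    rw [hx]
    simp [T]
  rw [e0] at h0
  have h1 := (h0.sub_const (hf.toLp f)).enorm
  rw [sub_self, enorm_zero] at h1
  have h2 := ENNReal.Tendsto.pow (n := 2) h1
  rw [zero_pow (by norm_num)] at h2
  refine h2.congr (fun t => ?_)
  rw [enorm_sq_Lp]
  refine lintegral_congr_ae ?_
  have hq := (hmp t).quasiMeasurePreserving.ae hf.coeFn_toLp
  filter_upwards [Lp.coeFn_sub (Lp.compMeasurePreserving (T t) (hmp t) (hf.toLp f)) (hf.toLp f),
    Lp.coeFn_compMeasurePreserving (hf.toLp f) (hmp t), hf.coeFn_toLp, hq] with x a b c d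
  rw [a, Pi.sub_apply, b, c, Function.comp_apply, d]
  rfl

theorem moll_conv {f : E3 → ℝ} (hf : MemLp f 2 (volume : Measure E3)) :
    Tendsto (fun n : ℕ => ∫⁻ x, ‖(∫ y, eta (1 / (n + 1)) (x - y) * f y) - f x‖ₑ ^ 2)
      atTop (𝓝 0) := by
  have hbd : ∀ δ : ℝ, 0 < δ → ∫⁻ x, ‖(∫ y, eta δ (x - y) * f y) - f x‖ₑ ^ 2
      ≤ ∫⁻ t, ENNReal.ofReal (eta δ t) * ∫⁻ x, ‖f (x - t) - f x‖ₑ ^ 2 := by
    intro δ hδ
    have hint : Integrable (eta δ) :=
      (eta_smooth δ).continuous.integrable_of_hasCompactSupport (eta_compact hδ)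
    have e : ∀ x, (∫ y, eta δ (x - y) * f y) - f x
        = ∫ t, eta δ t * (f (x - t) - f x) := by
      intro x
      rw [conv_eq]
      have i1 : Integrable (fun t => eta δ t * f (x - t)) := by
        have m1 : MemLp (eta δ) 2 (volume : Measure E3) :=
          (eta_smooth δ).continuous.memLp_of_hasCompactSupport (eta_compact hδ)
        have m2 : MemLp (fun t => f (x - t)) 2 (volume : Measure E3) :=
          hf.comp_measurePreserving (Measure.measurePreserving_sub_left volume x)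
        exact m1.integrable_mul m2
      have i2 : Integrable (fun t => eta δ t * f x) := hint.mul_const _
      simp_rw [mul_sub]
      rw [integral_sub i1 i2, integral_mul_const, eta_int hδ, one_mul]
    simp_rw [e]
    refine moll_L2 (eta_smooth δ).continuous (eta_nonneg hδ) hint (eta_int hδ)
      (fun x t => f (x - t) - f x) ?_
    exact (meas_sub hf.1).sub hf.1.comp_fst
  rw [ENNReal.tendsto_nhds_zero]
  intro ε hε
  have h1 := (ENNReal.tendsto_nhds_zero.mp (trans_cont hf)) ε hε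
  obtain ⟨r, hr, hr2⟩ := Metric.eventually_nhds_iff_ball.mp h1
  have h2 : ∀ᶠ n : ℕ in atTop, (1 / ((n : ℝ) + 1)) < r :=
    tendsto_one_div_add_atTop_nhds_zero_nat.eventually (gt_mem_nhds hr)
  filter_upwards [h2] with n hn
  have hδ : (0 : ℝ) < 1 / (n + 1) := by positivity
  refine (hbd _ hδ).trans ?_
  calc ∫⁻ t, ENNReal.ofReal (eta (1 / (n + 1)) t) * ∫⁻ x, ‖f (x - t) - f x‖ₑ ^ 2
      ≤ ∫⁻ t, ENNReal.ofReal (eta (1 / (n + 1)) t) * ε := by
        refine lintegral_mono (fun t => ?_)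
        by_cases ht : ‖t‖ < 1 / (n + 1)
        · gcongr
          exact hr2 t (by rw [mem_ball_zero_iff]; exact ht.trans hn)
        · simp only
          rw [eta_zero hδ (not_lt.mp ht)]
          simp
    _ = ε := by
        rw [lintegral_mul_const _ (eta_smooth _).continuous.measurable.ennreal_ofReal,
          lint_eta hδ, one_mul]

theorem stmE0 : StmE0 := by
  refine ⟨fun δ hδ => ⟨eta_smooth δ, eta_nonneg hδ, fun x hx => eta_zero hδ hx, eta_even δ,
    eta_int hδ⟩, eta_bounds, fun f hf => ⟨fun δ hδ => ?_, ?_⟩⟩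
  · have hloc : LocallyIntegrable f (volume : Measure E3) := hf.locallyIntegrable (by norm_num)
    have hs := moll_smooth hloc hδ
    have hle := moll_le hf.1 hδ
    have hft := (memLp_two_iff.mp hf).2
    refine ⟨hs, memLp_two_iff.mpr ⟨hs.continuous.aestronglyMeasurable, hle.trans_lt hft⟩, ?_⟩
    rw [integral_sq_eq hs.continuous.aestronglyMeasurable, integral_sq_eq hf.1]
    exact ENNReal.toReal_mono hft.ne hle
  · have hloc : LocallyIntegrable f (volume : Measure E3) := hf.locallyIntegrable (by norm_num)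
    have h := (ENNReal.tendsto_toReal (by simp : (0 : ℝ≥0∞) ≠ ⊤)).comp (moll_conv hf)
    simp only [ENNReal.toReal_zero] at h
    refine h.congr (fun n => ?_)
    have hδ : (0 : ℝ) < 1 / (n + 1) := by positivity
    rw [Function.comp_apply, integral_sq_eq]
    exact (moll_smooth hloc hδ).continuous.aestronglyMeasurable.sub hf.1

end Pool.Agent.Q224.HV
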