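import Pool.Agent.Q67.HV.Defs

/-!
Project HV of helper67, job H0: the pairs of the graph of the gradient satisfy `HS`.
-/

set_option autoImplicit false

open MeasureTheory Set Metric Filter Topology
open scoped InnerProductSpace ENNReal ContDiff NNReal
open H772R2.NS

namespace Pool.Agent.Q224.HV

open Pool.Agent.Q67.HV

theorem ae_univ {P : E3 → Prop} :
    (∀ᵐ x ∂((volume : Measure E3).restrict univ), P x) ↔ ∀ᵐ x : E3, P x := by
  rw [Measure.restrict_univ]

theorem int_univ (f : E3 → ℝ) : ∫ x in univ, f x = ∫ x, f x := by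
  rw [Measure.restrict_univ]

theorem memLp_univ {F : Type*} [NormedAddCommGroup F] {f : E3 → F} {q : ℝ≥0∞} :
    MemLp f q ((volume : Measure E3).restrict univ) ↔ MemLp f q (volume : Measure E3) := by
  rw [Measure.restrict_univ]

/-- the square of an integral over `[0, 1]`. -/
theorem sq_integral_le (f : ℝ → ℝ) (hf : Continuous f) :
    (∫ t in (0 : ℝ)..1, f t) ^ 2 ≤ ∫ t in (0 : ℝ)..1, f t ^ 2 := by
  set c := ∫ t in (0 : ℝ)..1, f t with hc
  have h0 : 0 ≤ ∫ t in (0 : ℝ)..1, (f t - c) ^ 2 :=
    intervalIntegral.integral_nonneg (by norm_num) (fun t _ => sq_nonneg _)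
  have h1 : ∫ t in (0 : ℝ)..1, (f t - c) ^ 2
      = (∫ t in (0 : ℝ)..1, f t ^ 2) - 2 * c * (∫ t in (0 : ℝ)..1, f t) + c ^ 2 := by
    have e : (fun t => (f t - c) ^ 2) = fun t => (f t ^ 2 - 2 * c * f t) + c ^ 2 := by
      funext t; ring
    rw [e, intervalIntegral.integral_add, intervalIntegral.integral_sub,
      intervalIntegral.integral_const_mul]
    · simp
    · exact (by fun_prop : Continuous fun t => f t ^ 2).intervalIntegrable _ _
    · exact (by fun_prop : Continuous fun t => 2 * c * f t).intervalIntegrable _ _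
    · exact (by fun_prop : Continuous fun t => f t ^ 2 - 2 * c * f t).intervalIntegrable _ _
    · exact (by fun_prop : Continuous fun _ : ℝ => c ^ 2).intervalIntegrable _ _
  rw [h1, ← hc] at h0
  nlinarith

/-- the pointwise bound of a difference of a test field. -/
theorem diff_pt {φ : E3 → E3} (h1 : ContDiff ℝ ∞ φ) (x h : E3) :
    ‖φ (x + h) - φ x‖ ^ 2 ≤ ‖h‖ ^ 2 * ∫ t in (0 : ℝ)..1, ‖jac φ (x + t • h)‖ ^ 2 := by
  have hd : Continuous (fderiv ℝ φ) := h1.continuous_fderiv (by simp)
  have hj : Continuous (jac φ) := continuous_jac h1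
  have hc1 : Continuous (fun t : ℝ => fderiv ℝ φ (x + t • h) h) :=
    (hd.comp (by fun_prop)).clm_apply continuous_const
  have hderiv : ∀ t ∈ uIcc (0 : ℝ) 1, HasDerivAt (fun t : ℝ => φ (x + t • h))
      (fderiv ℝ φ (x + t • h) h) t := by
    intro t _
    have e1 : HasFDerivAt φ (fderiv ℝ φ (x + t • h)) (x + t • h) :=
      ((h1.differentiable (by simp)) _).hasFDerivAt
    have e2 : HasDerivAt (fun t : ℝ => x + t • h) h t := by
      have := ((hasDerivAt_id t).smul_const h).const_add x
      simpa using this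
    exact e1.comp_hasDerivAt t e2
  have hftc := intervalIntegral.integral_eq_sub_of_hasDerivAt hderiv
    (hc1.intervalIntegrable _ _)
  simp only [one_smul, zero_smul, add_zero] at hftc
  have hn : ‖φ (x + h) - φ x‖ ≤ ∫ t in (0 : ℝ)..1, ‖jac φ (x + t • h)‖ * ‖h‖ := by
    rw [← hftc]
    refine (intervalIntegral.norm_integral_le_integral_norm (by norm_num)).trans ?_
    refine intervalIntegral.integral_mono_on (by norm_num) (hc1.norm.intervalIntegrable _ _)
      ?_ ?_
    · exact (((hj.comp (by fun_prop : Continuous fun t : ℝ => x + t • h)).norm.mul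
        continuous_const).intervalIntegrable _ _)
    · intro t _
      refine ((fderiv ℝ φ (x + t • h)).le_opNorm h).trans ?_
      gcongr
      exact norm_fderiv_le_jac _
  have hcj : Continuous fun t : ℝ => ‖jac φ (x + t • h)‖ :=
    (hj.comp (by fun_prop : Continuous fun t : ℝ => x + t • h)).norm
  calc ‖φ (x + h) - φ x‖ ^ 2 ≤ (∫ t in (0 : ℝ)..1, ‖jac φ (x + t • h)‖ * ‖h‖) ^ 2 := by
        gcongr
    _ = ‖h‖ ^ 2 * (∫ t in (0 : ℝ)..1, ‖jac φ (x + t • h)‖) ^ 2 := by
        rw [intervalIntegral.integral_mul_const]; ring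
    _ ≤ _ := by
        gcongr
        exact sq_integral_le _ hcj

/-- the bound for test fields. -/
theorem diff_test {φ : E3 → E3} (h1 : ContDiff ℝ ∞ φ) (h2 : HasCompactSupport φ) (h : E3) :
    ∫ x, ‖φ (x + h) - φ x‖ ^ 2 ≤ ‖h‖ ^ 2 * ∫ x, ‖jac φ x‖ ^ 2 := by
  have hj : Continuous (jac φ) := continuous_jac h1
  have hjc : HasCompactSupport (jac φ) := hasCompactSupport_jac h2
  have hg : Continuous fun x => ‖jac φ x‖ ^ 2 := by fun_prop
  have hgc : HasCompactSupport fun x => ‖jac φ x‖ ^ 2 := by
    refine hjc.mono (fun x hx => ?_)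
    intro h0; apply hx; simp [h0]
  have hgi : Integrable (fun x => ‖jac φ x‖ ^ 2) := hg.integrable_of_hasCompactSupport hgc
  have hprod : Integrable (fun q : E3 × ℝ => ‖jac φ (q.1 + q.2 • h)‖ ^ 2)
      ((volume : Measure E3).prod (volume.restrict (Ioc (0 : ℝ) 1))) := by
    have hcont : Continuous (fun q : E3 × ℝ => ‖jac φ (q.1 + q.2 • h)‖ ^ 2) := by
      have : Continuous fun q : E3 × ℝ => jac φ (q.1 + q.2 • h) := hj.comp (by fun_prop)
      fun_prop
    rw [integrable_prod_iff' hcont.aestronglyMeasurable]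
    constructor
    · refine Eventually.of_forall (fun t => ?_)
      exact hgi.comp_add_right (t • h)
    · have e : ∀ t : ℝ, ∫ x, ‖‖jac φ (x + t • h)‖ ^ 2‖ = ∫ x, ‖jac φ x‖ ^ 2 := by
        intro t
        have : ∀ x, ‖‖jac φ (x + t • h)‖ ^ 2‖ = (fun y => ‖jac φ y‖ ^ 2) (x + t • h) := by
          intro x
          simp
        simp_rw [this]
        exact integral_add_right_eq_self (fun y => ‖jac φ y‖ ^ 2) (t • h)
      simp_rw [e]
      exact integrable_const _
  have hswap : ∫ x, (∫ t in (0 : ℝ)..1, ‖jac φ (x + t • h)‖ ^ 2) = ∫ x, ‖jac φ x‖ ^ 2 := by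
    have e1 : ∀ x, (∫ t in (0 : ℝ)..1, ‖jac φ (x + t • h)‖ ^ 2)
        = ∫ t in Ioc (0 : ℝ) 1, ‖jac φ (x + t • h)‖ ^ 2 := fun x =>
      intervalIntegral.integral_of_le (by norm_num)
    simp_rw [e1]
    rw [integral_integral_swap hprod]
    have e2 : ∀ t : ℝ, ∫ x, ‖jac φ (x + t • h)‖ ^ 2 = ∫ x, ‖jac φ x‖ ^ 2 := fun t =>
      integral_add_right_eq_self (fun y => ‖jac φ y‖ ^ 2) (t • h)
    simp_rw [e2]
    simp
  have hint : Integrable (fun x => ∫ t in (0 : ℝ)..1, ‖jac φ (x + t • h)‖ ^ 2) := by
    have e1 : (fun x => ∫ t in (0 : ℝ)..1, ‖jac φ (x + t • h)‖ ^ 2)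
        = fun x => ∫ t in Ioc (0 : ℝ) 1, ‖jac φ (x + t • h)‖ ^ 2 := by
      funext x
      exact intervalIntegral.integral_of_le (by norm_num)
    rw [e1]
    exact hprod.integral_prod_left
  rw [← hswap, ← integral_const_mul]
  refine integral_mono_of_nonneg (Eventually.of_forall fun x => by positivity)
    (hint.const_mul _) (Eventually.of_forall fun x => diff_pt h1 x h)

/-- the norm in `L²` as an integral. -/
theorem norm_sq_Lp {α F : Type*} {mα : MeasurableSpace α} {μ : Measure α}
    [NormedAddCommGroup F] [InnerProductSpace ℝ F] (f : Lp F 2 μ) :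
    ‖f‖ ^ 2 = ∫ x, ‖f x‖ ^ 2 ∂μ := by
  rw [← real_inner_self_eq_norm_sq, L2.inner_def]
  simp_rw [real_inner_self_eq_norm_sq]

/-- the trace -/
noncomputable def trL : M3 →L[ℝ] ℝ := ∑ i : Fin 3, (EuclideanSpace.proj (𝕜 := ℝ) (i, i) : M3 →L[ℝ] ℝ)

theorem trL_apply (z : M3) : trL z = ∑ i, z (i, i) := by
  simp [trL]

theorem mp_translation (h : E3) :
    MeasurePreserving (fun x : E3 => x + h) (volume.restrict univ) (volume.restrict univ) := by
  rw [Measure.restrict_univ]
  exact measurePreserving_add_right volume h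

theorem stmH0 : StmH0 := by
  intro p hp
  refine ⟨?_, ?_, ?_, ?_, ?_⟩
  · exact memLp_univ.mp (Lp.memLp p.1)
  · exact memLp_univ.mp (Lp.memLp p.2)
  · intro ψ h1 h2 i j
    have hψc : Continuous ψ := h1.continuous
    have hdψ : Continuous (fun x => fderiv ℝ ψ x (ev j)) :=
      (h1.continuous_fderiv (by simp)).clm_apply continuous_const
    have hdψs : HasCompactSupport (fun x => fderiv ℝ ψ x (ev j)) := h2.fderiv_apply ℝ _
    let A : E3 → M3 := fun x => EuclideanSpace.single (i, j) (ψ x)
    let B : E3 → E3 := fun x => EuclideanSpace.single i (fderiv ℝ ψ x (ev j))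
    have hAc : Continuous A := by
      have : A = fun x => ψ x • (EuclideanSpace.single (i, j) (1 : ℝ) : M3) := by
        ext x p; simp [A]
      rw [this]; fun_prop
    have hBc : Continuous B := by
      have : B = fun x => fderiv ℝ ψ x (ev j) • (EuclideanSpace.single i (1 : ℝ) : E3) := by
        ext x p; simp [B]
      rw [this]; exact hdψ.smul continuous_const
    have hAs : HasCompactSupport A := by
      refine h2.mono (fun x hx => ?_)
      intro h0; apply hx; ext p; simp [A, h0]
    have hBs : HasCompactSupport B := by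
      refine hdψs.mono (fun x hx => ?_)
      intro h0
      apply hx
      have h0' : fderiv ℝ ψ x (ev j) = 0 := h0
      ext p; simp [B, h0']
    have hA : MemLp A 2 (volume.restrict (univ : Set E3)) :=
      (hAc.memLp_of_hasCompactSupport hAs).restrict univ
    have hB : MemLp B 2 (volume.restrict (univ : Set E3)) :=
      (hBc.memLp_of_hasCompactSupport hBs).restrict univ
    have hcont : Continuous (fun p : L2V univ × L2M univ =>
        ⟪hA.toLp A, p.2⟫_ℝ + ⟪hB.toLp B, p.1⟫_ℝ) := by fun_prop
    have hzero := graphW_induction (fun p : L2V univ × L2M univ =>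
        ⟪hA.toLp A, p.2⟫_ℝ + ⟪hB.toLp B, p.1⟫_ℝ) hcont.continuousOn (by
      rintro q ⟨φ, k1, k2, k3⟩
      have e1 : ⟪hA.toLp A, q.2⟫_ℝ = ∫ x, ψ x * fderiv ℝ (fun y => φ y i) x (ev j) := by
        rw [L2.inner_def, ← int_univ]
        apply integral_congr_ae
        filter_upwards [hA.coeFn_toLp, k3] with x a b
        rw [a, b]
        simp only [A, EuclideanSpace.inner_single_left, jac_apply]
        rw [fderiv_coord k1.smooth]
        simp
      have e2 : ⟪hB.toLp B, q.1⟫_ℝ = ∫ x, fderiv ℝ ψ x (ev j) * φ x i := by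
        rw [L2.inner_def, ← int_univ]
        apply integral_congr_ae
        filter_upwards [hB.coeFn_toLp, k2] with x a b
        rw [a, b]
        simp only [B, EuclideanSpace.inner_single_left]
        simp
      have hφ := contDiff_coord k1.smooth i
      have hφc := hasCompactSupport_coord k1.compact i
      have hcontφ : Continuous (fun x => fderiv ℝ (fun y => φ y i) x (ev j)) :=
        (hφ.continuous_fderiv (by simp)).clm_apply continuous_const
      have hibp : ∫ x, ψ x * fderiv ℝ (fun y => φ y i) x (ev j)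
          = - ∫ x, fderiv ℝ ψ x (ev j) * φ x i := by
        apply integral_mul_fderiv_eq_neg_fderiv_mul_of_integrable
        · exact (hdψ.mul hφ.continuous).integrable_of_hasCompactSupport (hφc.mul_left)
        · exact (hψc.mul hcontφ).integrable_of_hasCompactSupport (h2.mul_right)
        · exact (hψc.mul hφ.continuous).integrable_of_hasCompactSupport (hφc.mul_left)
        · intro x _
          exact (h1.differentiable (by simp)) x
        · intro x _
          exact (hφ.differentiable (by simp)) x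
      rw [e1, e2, hibp]
      ring) hp
    have e1 : ⟪hA.toLp A, p.2⟫_ℝ = ∫ x, p.2 x (i, j) * ψ x := by
      rw [L2.inner_def, ← int_univ]
      apply integral_congr_ae
      filter_upwards [hA.coeFn_toLp] with x a
      rw [a]
      simp only [A, EuclideanSpace.inner_single_left]
      simp [mul_comm]
    have e2 : ⟪hB.toLp B, p.1⟫_ℝ = ∫ x, p.1 x i * fderiv ℝ ψ x (ev j) := by
      rw [L2.inner_def, ← int_univ]
      apply integral_congr_ae
      filter_upwards [hB.coeFn_toLp] with x a
      rw [a]
      simp only [B, EuclideanSpace.inner_single_left]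
      simp [mul_comm]
    rw [e1, e2] at hzero
    linarith
  · have hcont : Continuous (fun p : L2V univ × L2M univ => ‖trL.compLpL 2
      (volume.restrict (univ : Set E3)) p.2‖) := by fun_prop
    have hz := graphW_induction (fun p : L2V univ × L2M univ => ‖trL.compLpL 2
      (volume.restrict (univ : Set E3)) p.2‖) hcont.continuousOn (by
      rintro q ⟨φ, k1, k2, k3⟩
      simp only [norm_eq_zero]
      refine Lp.eq_zero_iff_ae_eq_zero.mpr ?_
      filter_upwards [trL.coeFn_compLpL q.2, k3] with x a b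
      rw [a, b, trL_apply, k1.divfree]
      rfl) hp
    have hz' := Lp.eq_zero_iff_ae_eq_zero.mp (norm_eq_zero.mp hz)
    refine ae_univ.mp ?_
    filter_upwards [trL.coeFn_compLpL p.2, hz'] with x a b
    rw [← trL_apply, ← a, b]
    rfl
  · intro h
    have hm := mp_translation h
    have hcont : Continuous (fun p : L2V univ × L2M univ =>
        max (‖Lp.compMeasurePreservingₗᵢ ℝ (fun x : E3 => x + h) hm p.1 - p.1‖ ^ 2
          - ‖h‖ ^ 2 * ‖p.2‖ ^ 2) 0) := by
      have : Continuous (Lp.compMeasurePreservingₗᵢ ℝ (E := E3) (p := 2)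
        (fun x : E3 => x + h) hm) := LinearIsometry.continuous _
      fun_prop
    have key : ∀ (p : L2V univ × L2M univ),
        ‖Lp.compMeasurePreservingₗᵢ ℝ (fun x : E3 => x + h) hm p.1 - p.1‖ ^ 2
          = ∫ x, ‖p.1 (x + h) - p.1 x‖ ^ 2 := by
      intro p
      rw [norm_sq_Lp, ← int_univ]
      apply integral_congr_ae
      filter_upwards [Lp.coeFn_sub (Lp.compMeasurePreservingₗᵢ ℝ (fun x : E3 => x + h) hm p.1) p.1,
        Lp.coeFn_compMeasurePreserving p.1 hm] with x a b
      rw [a]
      simp only [Pi.sub_apply]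
      have : (Lp.compMeasurePreservingₗᵢ ℝ (fun x : E3 => x + h) hm p.1 : E3 → E3) x
        = p.1 (x + h) := b
      rw [this]
    have hz := graphW_induction (fun p : L2V univ × L2M univ =>
        max (‖Lp.compMeasurePreservingₗᵢ ℝ (fun x : E3 => x + h) hm p.1 - p.1‖ ^ 2
          - ‖h‖ ^ 2 * ‖p.2‖ ^ 2) 0) hcont.continuousOn (by
      rintro q ⟨φ, k1, k2, k3⟩
      simp only
      rw [key, max_eq_right]
      have e2 : ‖q.2‖ ^ 2 = ∫ x, ‖jac φ x‖ ^ 2 := by
        rw [norm_sq_Lp, ← int_univ]
        apply integral_congr_ae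
        filter_upwards [k3] with x a
        rw [a]
      have e1 : ∫ x, ‖q.1 (x + h) - q.1 x‖ ^ 2 = ∫ x, ‖φ (x + h) - φ x‖ ^ 2 := by
        have k3' : ∀ᵐ x : E3, q.1 x = φ x := ae_univ.mp k2
        apply integral_congr_ae
        have k4 := (measurePreserving_add_right (volume : Measure E3) h).quasiMeasurePreserving.ae
          k3'
        filter_upwards [k3', k4] with x a b
        rw [a, b]
      rw [e1, e2]
      have := diff_test k1.smooth k1.compact h
      linarith) hp
    simp only at hz
    have hz' := max_eq_right_iff.mp hz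
    rw [key] at hz'
    have e2 : ‖p.2‖ ^ 2 = ∫ x, ‖p.2 x‖ ^ 2 := by
      rw [norm_sq_Lp, int_univ]
    rw [e2] at hz'
    linarith

end Pool.Agent.Q224.HV
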