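import Pool.Agent.Q224.HV.E0

/-!
Project HV of helper67, job W: the test fields and the mollified vorticity.
-/

set_option autoImplicit false

open MeasureTheory Set Metric Filter Topology
open scoped InnerProductSpace ENNReal ContDiff NNReal
open H772R2.NS

namespace Pool.Agent.Q224.HV

open Pool.Agent.Q67.HV

theorem snd_apply {f : E3 → ℝ} (hf : ContDiff ℝ ∞ f) (x v w : E3) :
    fderiv ℝ (fun y => fderiv ℝ f y v) x w = fderiv ℝ (fderiv ℝ f) x w v := by
  have h1 : DifferentiableAt ℝ (fderiv ℝ f) x :=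
    ((hf.fderiv_right (m := ∞) (by simp)).differentiable (by simp)) x
  rw [fderiv_clm_apply h1 (differentiableAt_const v)]
  simp

theorem snd_symm {f : E3 → ℝ} (hf : ContDiff ℝ ∞ f) (x v w : E3) :
    fderiv ℝ (fun y => fderiv ℝ f y v) x w = fderiv ℝ (fun y => fderiv ℝ f y w) x v := by
  rw [snd_apply hf, snd_apply hf]
  have h : IsSymmSndFDerivAt ℝ f x := (hf.contDiffAt (x := x)).isSymmSndFDerivAt
    (by rw [minSmoothness_of_isRCLikeNormedField]; exact ENat.LEInfty.out)
  exact h.eq w v

theorem contDiff_d {f : E3 → ℝ} (hf : ContDiff ℝ ∞ f) (v : E3) :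
    ContDiff ℝ ∞ (fun y => fderiv ℝ f y v) :=
  (hf.fderiv_right (m := ∞) (by simp)).clm_apply contDiff_const

/-- the reflected mollifier. -/
noncomputable abbrev rf (δ : ℝ) (x : E3) : E3 → ℝ := fun y => eta δ (x - y)

theorem rf_smooth (δ : ℝ) (x : E3) : ContDiff ℝ ∞ (rf δ x) :=
  (eta_smooth δ).comp (contDiff_const.sub contDiff_id)

theorem rf_compact {δ : ℝ} (hδ : 0 < δ) (x : E3) : HasCompactSupport (rf δ x) :=
  HasCompactSupport.intro (isCompact_closedBall x δ) (fun y hy => by
    rw [mem_closedBall, dist_comm, dist_eq_norm, not_le] at hy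
    exact eta_zero hδ hy.le)

theorem rf_deriv (δ : ℝ) (x y v : E3) :
    fderiv ℝ (rf δ x) y v = -fderiv ℝ (eta δ) (x - y) v := by
  have h1 : HasFDerivAt (eta δ) (fderiv ℝ (eta δ) (x - y)) (x - y) :=
    (((eta_smooth δ).differentiable (by simp)) _).hasFDerivAt
  have h2 : HasFDerivAt (fun y : E3 => x - y) (-ContinuousLinearMap.id ℝ E3) y :=
    (hasFDerivAt_id y).const_sub x
  have h3 := h1.comp y h2
  have h4 : fderiv ℝ (rf δ x) y
      = (fderiv ℝ (eta δ) (x - y)).comp (-ContinuousLinearMap.id ℝ E3) := h3.fderiv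
  rw [h4]
  simp

theorem tf_apply (δ : ℝ) (i : Fin 3) (x y : E3) (k : Fin 3) :
    tf δ i x y k = ∑ l, eps k l i * fderiv ℝ (rf δ x) y (ev l) := rfl

theorem tf_smooth (δ : ℝ) (i : Fin 3) (x : E3) : ContDiff ℝ ∞ (tf δ i x) := by
  rw [contDiff_euclidean]
  intro k
  simp only [tf_apply]
  exact ContDiff.sum fun l _ => contDiff_const.mul (contDiff_d (rf_smooth δ x) _)

theorem tf_test {δ : ℝ} (hδ : 0 < δ) (i : Fin 3) (x : E3) : IsTest univ (tf δ i x) := by
  refine ⟨tf_smooth δ i x, ?_, subset_univ _, ?_⟩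
  · refine HasCompactSupport.intro (rf_compact hδ x) (fun y hy => ?_)
    have h0 : fderiv ℝ (rf δ x) y = 0 := by
      have : y ∉ tsupport (fderiv ℝ (rf δ x)) := fun h => hy (tsupport_fderiv_subset ℝ h)
      exact image_eq_zero_of_notMem_tsupport this
    ext k
    rw [tf_apply, h0]
    simp
  · intro y
    have h1 : ∀ k, jac (tf δ i x) y (k, k)
        = ∑ l, eps k l i * fderiv ℝ (fun y' => fderiv ℝ (rf δ x) y' (ev l)) y (ev k) := by
      intro k
      rw [jac_apply]
      simp only
      rw [← fderiv_coord (tf_smooth δ i x)]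
      simp only [tf_apply]
      rw [fderiv_fun_sum (fun l _ =>
        (((contDiff_d (rf_smooth δ x) _).differentiable (by simp)) y).const_mul _)]
      rw [sum_apply]
      refine Finset.sum_congr rfl (fun l _ => ?_)
      rw [fderiv_const_mul (((contDiff_d (rf_smooth δ x) _).differentiable (by simp)) y)]
      rfl
    simp_rw [h1]
    have s := fun a b => snd_symm (rf_smooth δ x) y (ev a) (ev b)
    have s01 := s 0 1
    have s02 := s 0 2
    have s12 := s 1 2
    fin_cases i <;> simp [Fin.sum_univ_three, eps] <;> linarith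

/-- the mollification of a component. -/
noncomputable abbrev mol (δ : ℝ) (f : E3 → ℝ) : E3 → ℝ := fun x => ∫ y, eta δ (x - y) * f y

theorem mol_deriv {f : E3 → ℝ} (hf : LocallyIntegrable f (volume : Measure E3)) {δ : ℝ}
    (hδ : 0 < δ) (x v : E3) :
    fderiv ℝ (mol δ f) x v = ∫ y, f y * fderiv ℝ (eta δ) (x - y) v := by
  have e : mol δ f = convolution f (eta δ) (ContinuousLinearMap.mul ℝ ℝ) volume := by
    funext x
    rw [convolution_def]
    simp only [mol]
    refine integral_congr_ae (Eventually.of_forall fun y => ?_)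
    simp [mul_comm]
  have h := (eta_compact hδ).hasFDerivAt_convolution_right (ContinuousLinearMap.mul ℝ ℝ) hf
    ((eta_smooth δ).of_le (by simp)) x
  rw [e, h.fderiv, convolution_precompR_apply _ hf ((eta_compact hδ).fderiv ℝ)
    ((eta_smooth δ).continuous_fderiv (by simp)), convolution_def]
  rfl

theorem eps_swap (k l i : Fin 3) : eps i l k = -eps k l i := by
  fin_cases k <;> fin_cases l <;> fin_cases i <;> simp [eps]

section hs

variable {v : E3 → E3} {z : E3 → M3}

theorem hs_v (h : HS v z) (k : Fin 3) : MemLp (fun y => v y k) 2 (volume : Measure E3) :=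
  (memLp_piLp_iff.mp h.mv) k

theorem hs_z (h : HS v z) (p : Fin 3 × Fin 3) : MemLp (fun y => z y p) 2 (volume : Measure E3) :=
  (memLp_piLp_iff.mp h.mz) p

theorem wu_eq (h : HS v z) {δ : ℝ} (hδ : 0 < δ) (x : E3) (i : Fin 3) :
    wu δ v x i = ∑ k, ∑ l, -eps k l i * fderiv ℝ (mol δ fun y => v y k) x (ev l) := by
  have hint : ∀ k l, Integrable (fun y => v y k * fderiv ℝ (rf δ x) y (ev l)) := by
    intro k l
    have m2 : MemLp (fun y => fderiv ℝ (rf δ x) y (ev l)) 2 (volume : Measure E3) :=
      (contDiff_d (rf_smooth δ x) _).continuous.memLp_of_hasCompactSupport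
        ((rf_compact hδ x).fderiv_apply ℝ _)
    exact (hs_v h k).integrable_mul m2
  have e0 : wu δ v x i = ∫ y, ∑ k, ∑ l, eps k l i * (v y k * fderiv ℝ (rf δ x) y (ev l)) := by
    simp only [wu]
    refine integral_congr_ae (Eventually.of_forall fun y => ?_)
    simp only [tf_apply]
    refine Finset.sum_congr rfl fun k _ => ?_
    rw [Finset.mul_sum]
    refine Finset.sum_congr rfl fun l _ => ?_
    ring
  rw [e0, integral_finsetSum _ (fun k _ => integrable_finsetSum _
    fun l _ => (hint k l).const_mul _)]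
  refine Finset.sum_congr rfl fun k _ => ?_
  rw [integral_finsetSum _ fun l _ => (hint k l).const_mul _]
  refine Finset.sum_congr rfl fun l _ => ?_
  rw [integral_const_mul, mol_deriv ((hs_v h k).locallyIntegrable (by norm_num)) hδ]
  have e1 : ∫ y, v y k * fderiv ℝ (rf δ x) y (ev l)
      = -∫ y, v y k * fderiv ℝ (eta δ) (x - y) (ev l) := by
    rw [← integral_neg]
    refine integral_congr_ae (Eventually.of_forall fun y => ?_)
    simp only [rf_deriv]
    ring
  rw [e1]
  ring

theorem wd_eq (h : HS v z) {δ : ℝ} (hδ : 0 < δ) (x : E3) (i : Fin 3) :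
    wd δ z x i = ∑ k, ∑ l, -eps k l i * fderiv ℝ (mol δ fun y => v y k) x (ev l) := by
  have hint : ∀ k l, Integrable (fun y => z y (k, l) * rf δ x y) := by
    intro k l
    have m2 : MemLp (rf δ x) 2 (volume : Measure E3) :=
      (rf_smooth δ x).continuous.memLp_of_hasCompactSupport (rf_compact hδ x)
    exact (hs_z h (k, l)).integrable_mul m2
  have e0 : wd δ z x i = ∫ y, ∑ k, ∑ l, -eps k l i * (z y (k, l) * rf δ x y) := by
    simp only [wd, vor]
    refine integral_congr_ae (Eventually.of_forall fun y => ?_)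
    simp only
    rw [Finset.sum_comm, Finset.mul_sum]
    refine Finset.sum_congr rfl fun k _ => ?_
    rw [Finset.mul_sum]
    refine Finset.sum_congr rfl fun l _ => ?_
    rw [eps_swap k l i]
    simp only [rf]
    ring
  rw [e0, integral_finsetSum _ (fun k _ => integrable_finsetSum _
    fun l _ => (hint k l).const_mul _)]
  refine Finset.sum_congr rfl fun k _ => ?_
  rw [integral_finsetSum _ fun l _ => (hint k l).const_mul _]
  refine Finset.sum_congr rfl fun l _ => ?_
  rw [integral_const_mul, mol_deriv ((hs_v h k).locallyIntegrable (by norm_num)) hδ]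
  have h1 := h.grad (rf δ x) (rf_smooth δ x) (rf_compact hδ x) k l
  have e1 : ∫ y, v y k * fderiv ℝ (rf δ x) y (ev l)
      = -∫ y, v y k * fderiv ℝ (eta δ) (x - y) (ev l) := by
    rw [← integral_neg]
    refine integral_congr_ae (Eventually.of_forall fun y => ?_)
    simp only [rf_deriv]
    ring
  rw [e1, neg_inj] at h1
  rw [← h1]

theorem memLp_vor (h : HS v z) (i : Fin 3) :
    MemLp (fun y => vor (z y) i) 2 (volume : Measure E3) := by
  have e : (fun y => vor (z y) i) = fun y => ∑ l, ∑ k, eps i l k * z y (k, l) := rfl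
  rw [e]
  exact memLp_finsetSum _ fun l _ => memLp_finsetSum _ fun k _ => (hs_z h (k, l)).const_mul _

theorem vor_sq (a : M3) : ∑ i, vor a i ^ 2 ≤ 4 * ‖a‖ ^ 2 := by
  rw [norm_sq_M3]
  simp only [vor, Fin.sum_univ_three, eps]
  simp
  nlinarith [sq_nonneg (a (0, 1) + a (1, 0)), sq_nonneg (a (0, 2) + a (2, 0)),
    sq_nonneg (a (1, 2) + a (2, 1)), sq_nonneg (a (0, 0)), sq_nonneg (a (1, 1)),
    sq_nonneg (a (2, 2)), sq_nonneg (a (0, 1)), sq_nonneg (a (1, 0)), sq_nonneg (a (0, 2)),
    sq_nonneg (a (2, 0)), sq_nonneg (a (1, 2)), sq_nonneg (a (2, 1))]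

end hs

theorem stmW : StmW := by
  refine ⟨fun δ i x hδ => tf_test hδ i x, fun v z h δ hδ => ⟨?_, ?_, ?_, ?_, ?_⟩⟩
  · intro x
    ext i
    rw [wu_eq h hδ, wd_eq h hδ]
  · intro i
    exact moll_smooth ((memLp_vor h i).locallyIntegrable (by norm_num)) hδ
  · intro x
    have hs : ∀ k, ContDiff ℝ ∞ (mol δ fun y => v y k) := fun k =>
      moll_smooth ((hs_v h k).locallyIntegrable (by norm_num)) hδ
    have h1 : ∀ i, fderiv ℝ (fun y => wd δ z y i) x (ev i)
        = ∑ k, ∑ l, -eps k l i
          * fderiv ℝ (fun y' => fderiv ℝ (mol δ fun y => v y k) y' (ev l)) x (ev i) := by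
      intro i
      simp only [wd_eq h hδ]
      have d1 : ∀ k l, DifferentiableAt ℝ
          (fun y' => fderiv ℝ (mol δ fun y => v y k) y' (ev l)) x := fun k l =>
        ((contDiff_d (hs k) _).differentiable (by simp)) x
      rw [fderiv_fun_sum (fun k _ => DifferentiableAt.fun_sum fun l _ => (d1 k l).const_mul _)]
      rw [sum_apply]
      refine Finset.sum_congr rfl (fun k _ => ?_)
      rw [fderiv_fun_sum (fun l _ => (d1 k l).const_mul _)]
      rw [sum_apply]
      refine Finset.sum_congr rfl (fun l _ => ?_)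
      rw [fderiv_const_mul (d1 k l)]
      rfl
    simp_rw [h1]
    have s := fun k a b => snd_symm (hs k) x (ev a) (ev b)
    have s01 := s 2 0 1
    have s02 := s 1 0 2
    have s12 := s 0 1 2
    simp [Fin.sum_univ_three, eps]
    linarith
  · refine MemLp.of_eval_piLp (fun i => ?_)
    have h2 := memLp_vor h i
    have hs := moll_smooth (h2.locallyIntegrable (by norm_num)) hδ
    refine memLp_two_iff.mpr ⟨hs.continuous.aestronglyMeasurable, ?_⟩
    exact (moll_le h2.1 hδ).trans_lt (memLp_two_iff.mp h2).2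
  · have hm : ∀ i, MemLp (fun x => wd δ z x i) 2 (volume : Measure E3) := fun i => by
      have h2 := memLp_vor h i
      have hs := moll_smooth (h2.locallyIntegrable (by norm_num)) hδ
      exact memLp_two_iff.mpr ⟨hs.continuous.aestronglyMeasurable,
        (moll_le h2.1 hδ).trans_lt (memLp_two_iff.mp h2).2⟩
    have hle : ∀ i, ∫ x, wd δ z x i ^ 2 ≤ ∫ x, vor (z x) i ^ 2 := fun i => by
      have h2 := memLp_vor h i
      have hs := moll_smooth (h2.locallyIntegrable (by norm_num)) hδ
      have := ENNReal.toReal_mono (memLp_two_iff.mp h2).2.ne (moll_le h2.1 hδ)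
      rw [← integral_sq_eq h2.1, ← integral_sq_eq hs.continuous.aestronglyMeasurable] at this
      exact this
    simp_rw [norm_sq_E3]
    rw [integral_finsetSum _ fun i _ => (hm i).integrable_sq]
    calc ∑ i, ∫ x, wd δ z x i ^ 2 ≤ ∑ i, ∫ x, vor (z x) i ^ 2 :=
          Finset.sum_le_sum fun i _ => hle i
      _ = ∫ x, ∑ i, vor (z x) i ^ 2 := by
          rw [integral_finsetSum _ fun i _ => (memLp_vor h i).integrable_sq]
      _ ≤ ∫ x, 4 * ‖z x‖ ^ 2 := by
          refine integral_mono (integrable_finsetSum _ fun i _ => (memLp_vor h i).integrable_sq)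
            ((h.mz.integrable_norm_pow (by norm_num)).const_mul 4) fun x => vor_sq _
      _ = _ := integral_const_mul _ _

end Pool.Agent.Q224.HV
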